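import Mathlib

/-! CAT(0) group boundaries, the Tits metric, joins: the definitions of the statement. -/

namespace Pool.Agent.MP_0c1703_gt.H58

open Set Filter Topology
open scoped NNReal ENNReal Real

/-- CAT(0): geodesic, and the CAT(0) inequality between a vertex and a point of the opposite side. -/
def CAT0 (X : Type) [MetricSpace X] : Prop :=
  (∀ x y : X, ∃ γ : ℝ → X, γ 0 = x ∧ γ (dist x y) = y ∧
    ∀ s ∈ Icc 0 (dist x y), ∀ t ∈ Icc 0 (dist x y), dist (γ s) (γ t) = |s - t|) ∧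
  ∀ (p x y m : X) (t : ℝ), 0 ≤ t → t ≤ 1 → dist x m = t * dist x y →
    dist m y = (1 - t) * dist x y →
    dist p m ^ 2 ≤ (1 - t) * dist p x ^ 2 + t * dist p y ^ 2 - t * (1 - t) * dist x y ^ 2

/-- An isometric action that is properly discontinuous and cocompact. -/
def Geometric {X G : Type} [MetricSpace X] [Group G] (ρ : G →* X ≃ᵢ X) : Prop :=
  (∀ K : Set X, IsCompact K → {g : G | (ρ g '' K ∩ K).Nonempty}.Finite) ∧
  ∃ K : Set X, IsCompact K ∧ ∀ x, ∃ g, ρ g x ∈ K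

/-- A proper CAT(0) space on which some group acts geometrically. -/
def GroupSpace (X : Type) [MetricSpace X] : Prop :=
  ProperSpace X ∧ CAT0 X ∧ ∃ (G : Type) (_ : Group G) (ρ : G →* X ≃ᵢ X), Geometric ρ

/-- Geodesic rays, with the topology of pointwise (= locally uniform) convergence. -/
abbrev Ray (X : Type) [MetricSpace X] : Type := {c : ℝ≥0 → X // Isometry c}

/-- The visual boundary: rays modulo finite Hausdorff distance, with the quotient topology. -/
abbrev Bd (X : Type) [MetricSpace X] : Type :=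
  Quot fun c e : Ray X => Metric.hausdorffEDist (range c.1) (range e.1) ≠ ⊤

/-- The Alexandrov (upper) angle of two rays at their common origin. -/
noncomputable def alex {X : Type} [MetricSpace X] (c e : Ray X) : ℝ :=
  limsup (fun p : ℝ≥0 × ℝ≥0 => Real.arccos
    (((p.1 : ℝ) ^ 2 + (p.2 : ℝ) ^ 2 - dist (c.1 p.1) (e.1 p.2) ^ 2) / (2 * (p.1 : ℝ) * (p.2 : ℝ))))
    (𝓝[>] 0 ×ˢ 𝓝[>] 0)

/-- The angle metric: the supremum over all base points of the Alexandrov angle. -/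
noncomputable def ang {X : Type} [MetricSpace X] (u v : Bd X) : ℝ :=
  sSup {a | ∃ c e : Ray X, Quot.mk _ c = u ∧ Quot.mk _ e = v ∧ c.1 0 = e.1 0 ∧ a = alex c e}

/-- The Tits metric: the path metric induced by the angle metric. -/
noncomputable def tits {X : Type} [MetricSpace X] (u v : Bd X) : ℝ≥0∞ :=
  ⨅ (γ : ℝ → Bd X) (_ : γ 0 = u) (_ : γ 1 = v)
    (_ : ∀ s ∈ Icc (0 : ℝ) 1, ∀ ε > 0, ∃ δ > 0, ∀ t ∈ Icc (0 : ℝ) 1, |t - s| < δ →
      ang (γ s) (γ t) < ε),
    ⨆ (n : ℕ) (τ : ℕ → ℝ) (_ : Monotone τ) (_ : ∀ i, τ i ∈ Icc (0 : ℝ) 1),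
      ∑ i ∈ Finset.range n, ENNReal.ofReal (ang (γ (τ i)) (γ (τ (i + 1))))

/-- Any two CAT(0) group boundaries homeomorphic to Y are boundary isomorphic. -/
def TitsRigid (Y : Type) [TopologicalSpace Y] : Prop :=
  ∀ (X₁ X₂ : Type) [MetricSpace X₁] [MetricSpace X₂], GroupSpace X₁ → GroupSpace X₂ →
    Nonempty (Bd X₁ ≃ₜ Y) → Nonempty (Bd X₂ ≃ₜ Y) →
    ∃ f : Bd X₁ ≃ₜ Bd X₂, ∀ u v, tits (f u) (f v) = tits u v

/-- The join of two (nonempty) spaces; the suspension of Y is Join Bool Y. -/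
abbrev Join (A B : Type) : Type :=
  Quot fun x y : A × B × Icc (0 : ℝ) (π / 2) => x.2.2 = y.2.2 ∧
    (((x.2.2 : ℝ) = 0 ∧ x.1 = y.1) ∨ ((x.2.2 : ℝ) = π / 2 ∧ x.2.1 = y.2.1))

/-- For every nonempty open P, every map on Y that is null-homotopic on P is null-homotopic on
the complement of P (as for spheres). -/
def SphereLike (Y : Type) [TopologicalSpace Y] : Prop :=
  ∀ P : Set Y, IsOpen P → P.Nonempty → ∀ (S : Type) [TopologicalSpace S] (f : C(Y, S)),
    (f.restrict P).Nullhomotopic → (f.restrict Pᶜ).Nullhomotopic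

/-- Some element translates a geodesic line that bounds no flat half-plane. -/
def RankOne {X G : Type} [MetricSpace X] [Group G] (ρ : G →* X ≃ᵢ X) : Prop :=
  ∃ (g : G) (l : ℝ → X) (τ : ℝ), 0 < τ ∧ Isometry l ∧ (∀ t, ρ g (l t) = l (t + τ)) ∧
    ¬ ∃ F : ℝ → ℝ≥0 → X, (∀ t, F t 0 = l t) ∧
      ∀ s t a b, dist (F s a) (F t b) ^ 2 = (s - t) ^ 2 + ((a : ℝ) - (b : ℝ)) ^ 2

/-- A is a CAT(0) group boundary that is either disconnected with at least three points, or
the boundary of a group with a rank one element and not sphere-like. -/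
def Good (A : Type) [TopologicalSpace A] : Prop :=
  ∃ (X G : Type) (_ : MetricSpace X) (_ : Group G) (ρ : G →* X ≃ᵢ X),
    ProperSpace X ∧ CAT0 X ∧ Geometric ρ ∧ Nonempty (Bd X ≃ₜ A) ∧
    ((¬ PreconnectedSpace A ∧ ∃ a b c : A, a ≠ b ∧ a ≠ c ∧ b ≠ c) ∨ (RankOne ρ ∧ ¬ SphereLike A))

end Pool.Agent.MP_0c1703_gt.H58
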