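import Pool.Agent.MP_0c1703_gt.H58.Defs

/-! Double mapping cylinders over totally disconnected spaces (one-dimensional buildings). -/

namespace Pool.Agent.MP_0c1703_gt.H58

open Set

/-- The double mapping cylinder: the graph with edge space C and end point maps α, β. -/
abbrev Cyl {C A B : Type} (α : C → A) (β : C → B) : Type :=
  Quot fun x y : C × Icc (0 : ℝ) 1 => x.2 = y.2 ∧
    (((x.2 : ℝ) = 0 ∧ α x.1 = α y.1) ∨ ((x.2 : ℝ) = 1 ∧ β x.1 = β y.1))

/-- The fibres of α are perfect and nowhere dense. -/
def Thick {C A : Type} [TopologicalSpace C] (α : C → A) : Prop :=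
  ∀ c, c ∈ closure {c' | α c' = α c ∧ c' ≠ c} ∧ c ∈ closure {c' | α c' ≠ α c}

/-- Y is a bipartite graph whose edge space is compact, whose edge and vertex spaces are totally
disconnected, and whose vertex links are perfect and nowhere dense in the edge space. -/
def CantorGraph (Y : Type) [TopologicalSpace Y] : Prop :=
  ∃ (C A B : Type) (_ : TopologicalSpace C) (_ : TopologicalSpace A) (_ : TopologicalSpace B)
    (α : C → A) (β : C → B), Nonempty C ∧ CompactSpace C ∧ TotallyDisconnectedSpace C ∧
    TotallyDisconnectedSpace A ∧ TotallyDisconnectedSpace B ∧ Continuous α ∧ Continuous β ∧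
    Thick α ∧ Thick β ∧ Nonempty (Y ≃ₜ Cyl α β)

end Pool.Agent.MP_0c1703_gt.H58
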