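import Pool.Agent.MP_0c1703_gt.H58.Defs

/-! Internal definitions and the row statements (plan: /team-store/0c1703_plan.md). -/

namespace Pool.Agent.MP_0c1703_gt.H58

open Set Filter Topology
open scoped NNReal ENNReal Real

section defs
variable {X : Type} [MetricSpace X]

/-- the boundary point of a ray -/
def mk (c : Ray X) : Bd X := Quot.mk _ c

open Classical in
/-- a geodesic segment from x to y, parametrised by arc length on [0, dist x y] -/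
noncomputable def seg (x y : X) : ℝ → X :=
  if h : ∃ γ : ℝ → X, γ 0 = x ∧ γ (dist x y) = y ∧
    ∀ s ∈ Icc 0 (dist x y), ∀ t ∈ Icc 0 (dist x y), dist (γ s) (γ t) = |s - t|
  then h.choose else fun _ => x

open Classical in
/-- the ray from x to the boundary point u -/
noncomputable def ray (x : X) (u : Bd X) : Ray X :=
  if h : ∃ c : Ray X, c.1 0 = x ∧ mk c = u then h.choose else Quot.out u

/-- the point at real time t on the ray from x to u -/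
noncomputable def rp (x : X) (u : Bd X) (t : ℝ) : X := (ray x u).1 t.toNNReal

/-- the Busemann function of u, normalised to vanish at x, evaluated at y -/
noncomputable def bus (u : Bd X) (x y : X) : ℝ := ⨅ t : ℝ≥0, (dist y ((ray x u).1 t) - t)

/-- the infimum of the cosines of the comparison angles at x -/
noncomputable def kap (x : X) (u v : Bd X) : ℝ :=
  ⨅ p : Ioi (0 : ℝ) × Ioi (0 : ℝ),
    ((p.1 : ℝ) ^ 2 + (p.2 : ℝ) ^ 2 - dist (rp x u p.1) (rp x v p.2) ^ 2) / (2 * (p.1 : ℝ) * (p.2 : ℝ))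

/-- image of a ray under an isometry -/
def rmap (φ : X ≃ᵢ X) (c : Ray X) : Ray X := ⟨φ ∘ c.1, φ.isometry.comp c.2⟩

theorem rmap_rel (φ : X ≃ᵢ X) (c e : Ray X)
    (h : Metric.hausdorffEDist (range c.1) (range e.1) ≠ ⊤) :
    Metric.hausdorffEDist (range (rmap φ c).1) (range (rmap φ e).1) ≠ ⊤ := by
  simp only [rmap, range_comp]
  rwa [Metric.hausdorffEDist_image φ.isometry]

/-- the action of an isometry on the boundary -/
def act (φ : X ≃ᵢ X) : Bd X → Bd X := Quot.map (rmap φ) (rmap_rel φ)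

theorem act_mk (φ : X ≃ᵢ X) (c : Ray X) : act φ (mk c) = mk (rmap φ c) := rfl

theorem mk_surj (u : Bd X) : ∃ c, mk c = u := Quot.exists_rep u

theorem mk_cont : Continuous (mk : Ray X → Bd X) := continuous_quot_mk

theorem act_one (u : Bd X) : act 1 u = u := by
  obtain ⟨c, rfl⟩ := mk_surj u; rfl

theorem act_mul (φ ψ : X ≃ᵢ X) (u : Bd X) : act (φ * ψ) u = act φ (act ψ u) := by
  obtain ⟨c, rfl⟩ := mk_surj u; rfl

theorem act_inv (φ : X ≃ᵢ X) (u : Bd X) : act φ⁻¹ (act φ u) = u := by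
  rw [← act_mul, inv_mul_cancel, act_one]

theorem act_inv' (φ : X ≃ᵢ X) (u : Bd X) : act φ (act φ⁻¹ u) = u := by
  rw [← act_mul, mul_inv_cancel, act_one]

theorem act_cont (φ : X ≃ᵢ X) : Continuous (act φ) := by
  refine continuous_quot_lift _ (mk_cont.comp ?_)
  refine Continuous.subtype_mk (continuous_pi fun t => ?_) _
  exact φ.continuous.comp ((continuous_apply t).comp continuous_subtype_val)

/-- the action as a homeomorphism -/
def actH (φ : X ≃ᵢ X) : Bd X ≃ₜ Bd X where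
  toFun := act φ
  invFun := act φ⁻¹
  left_inv := act_inv φ
  right_inv := act_inv' φ
  continuous_toFun := act_cont φ
  continuous_invFun := act_cont φ⁻¹

/-- l is a geodesic line whose forward end is n -/
def Line (n : Bd X) (l : ℝ → X) : Prop :=
  Isometry l ∧ ∃ c : Ray X, (∀ t : ℝ≥0, c.1 t = l t) ∧ mk c = n

/-- the points x i converge to the boundary point u, seen from o -/
def Conv {ι : Type} (l : Filter ι) (o : X) (x : ι → X) (u : Bd X) : Prop :=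
  Tendsto (fun i => dist o (x i)) l atTop ∧
    ∀ T, 0 ≤ T → Tendsto (fun i => seg o (x i) T) l (𝓝 (rp o u T))

/-- closed sets at angle pi from ζ can be pushed into every neighbourhood of ξ -/
def Push {G : Type} [Group G] (ρ : G →* X ≃ᵢ X) (ζ ξ : Bd X) : Prop :=
  ∀ K : Set (Bd X), IsClosed K → (∀ η ∈ K, ang η ζ = π) →
    ∀ P : Set (Bd X), IsOpen P → ξ ∈ P → ∃ g, ∀ η ∈ K, act (ρ g) η ∈ P

/-- a G-equivariant isometric embedding of the l2 product of X' and the line -/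
structure Split {G : Type} [Group G] (ρ : G →* X ≃ᵢ X) (X' : Type) [MetricSpace X']
    (Φ : X' → ℝ → X) (ρ' : G →* X' ≃ᵢ X') (χ : G → ℝ) : Prop where
  pyth : ∀ x y s t, dist (Φ x s) (Φ y t) ^ 2 = dist x y ^ 2 + (s - t) ^ 2
  equi : ∀ g x t, ρ g (Φ x t) = Φ (ρ' g x) (t + χ g)

end defs

/-- Z is the suspension of V with poles n, p and polar coordinates q -/
structure Susp (Z V : Type) [TopologicalSpace Z] [TopologicalSpace V] (n p : Z)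
    (q : V × ℝ → Z) : Prop where
  cont : Continuous q
  zero : ∀ v, q (v, 0) = n
  pi : ∀ v, q (v, π) = p
  ne : n ≠ p
  inj : ∀ v θ v' θ', θ ∈ Ioo 0 π → θ' ∈ Icc 0 π → q (v, θ) = q (v', θ') → v = v' ∧ θ = θ'
  surj : ∀ z, z = n ∨ z = p ∨ ∃ v, ∃ θ ∈ Ioo 0 π, q (v, θ) = z

/-- Y is the join of A and B with coordinates j -/
structure JoinS (Y A B : Type) [TopologicalSpace Y] [TopologicalSpace A] [TopologicalSpace B]
    (j : A × B × ℝ → Y) : Prop where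
  cont : Continuous j
  zero : ∀ a b b', j (a, b, 0) = j (a, b', 0)
  one : ∀ a a' b, j (a, b, 1) = j (a', b, 1)
  inj : ∀ a b s a' b' s', s ∈ Icc (0 : ℝ) 1 → s' ∈ Icc (0 : ℝ) 1 → j (a, b, s) = j (a', b', s') →
    s = s' ∧ (s < 1 → a = a') ∧ (0 < s → b = b')
  surj : ∀ y, ∃ a b, ∃ s ∈ Icc (0 : ℝ) 1, j (a, b, s) = y

/-- f is null-homotopic on A -/
def NullOn {Y S : Type} [TopologicalSpace Y] [TopologicalSpace S] (f : Y → S) (A : Set Y) : Prop :=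
  ∃ (H : Y × ℝ → S) (s₀ : S), ContinuousOn H (A ×ˢ Icc 0 1) ∧ (∀ y ∈ A, H (y, 0) = f y) ∧
    ∀ y ∈ A, H (y, 1) = s₀

/-- every map on Y that is null-homotopic on U is null-homotopic on U' -/
def Ctrl {Y : Type} [TopologicalSpace Y] (U U' : Set Y) : Prop :=
  ∀ (S : Type) [TopologicalSpace S] (f : Y → S), Continuous f → NullOn f U → NullOn f U'

/-- points are separated by the null-homotopy filtration -/
def Sep (A : Type) [TopologicalSpace A] : Prop :=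
  ∀ a a' : A, (∀ U, IsOpen U → a ∈ U → ∃ U', IsOpen U' ∧ a' ∈ U' ∧ Ctrl U U') → a = a'

/-- poles are topological and the suspension cancels -/
def Canc (Y : Type) [TopologicalSpace Y] : Prop :=
  ∀ (Z V : Type) [TopologicalSpace Z] [T2Space Z] [TopologicalSpace V] [CompactSpace V]
    (n p n' p' : Z) (q : Y × ℝ → Z) (q' : V × ℝ → Z), Susp Z Y n p q → Susp Z V n' p' q' →
    (n' = n ∨ n' = p) ∧ Nonempty (V ≃ₜ Y)

/-- α is a continuous map on the open set O with continuous local sections -/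
structure Chart {Z A : Type} [TopologicalSpace Z] [TopologicalSpace A] (O : Set Z) (α : Z → A) :
    Prop where
  op : IsOpen O
  cont : ContinuousOn α O
  sec : ∀ z ∈ O, ∃ (U : Set A) (σ : A → Z), IsOpen U ∧ α z ∈ U ∧ ContinuousOn σ U ∧
    σ (α z) = z ∧ ∀ a ∈ U, σ a ∈ O ∧ α (σ a) = a

variable (X : Type) [MetricSpace X]

structure C1 : Prop where
  seg0 : ∀ x y : X, seg x y 0 = x
  seg1 : ∀ x y : X, seg x y (dist x y) = y
  segd : ∀ x y : X, ∀ s ∈ Icc 0 (dist x y), ∀ t ∈ Icc 0 (dist x y),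
    dist (seg x y s) (seg x y t) = |s - t|
  cn : ∀ (p x y m : X) (t : ℝ), 0 ≤ t → t ≤ 1 → dist x m = t * dist x y →
    dist m y = (1 - t) * dist x y →
    dist p m ^ 2 ≤ (1 - t) * dist p x ^ 2 + t * dist p y ^ 2 - t * (1 - t) * dist x y ^ 2
  conv : ∀ (x y m x' y' m' : X) (t : ℝ), 0 ≤ t → t ≤ 1 → dist x m = t * dist x y →
    dist m y = (1 - t) * dist x y → dist x' m' = t * dist x' y' →
    dist m' y' = (1 - t) * dist x' y' → dist m m' ≤ (1 - t) * dist x x' + t * dist y y'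
  cmp : ∀ (o x y a b : X) (s t : ℝ), 0 ≤ s → s ≤ 1 → 0 ≤ t → t ≤ 1 → dist o a = s * dist o x →
    dist a x = (1 - s) * dist o x → dist o b = t * dist o y → dist b y = (1 - t) * dist o y →
    dist a b ^ 2 ≤ dist o a ^ 2 + dist o b ^ 2 -
      s * t * (dist o x ^ 2 + dist o y ^ 2 - dist x y ^ 2)
  asym : ∀ c e : Ray X, mk c = mk e ↔ ∃ C : ℝ, ∀ t, dist (c.1 t) (e.1 t) ≤ C
  anti : ∀ c e : Ray X, mk c = mk e → ∀ s t, s ≤ t → dist (c.1 t) (e.1 t) ≤ dist (c.1 s) (e.1 s)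

structure C2 : Prop where
  ray0 : ∀ (x : X) (u : Bd X), (ray x u).1 0 = x
  rayu : ∀ (x : X) (u : Bd X), mk (ray x u) = u
  rayc : ∀ c : Ray X, ray (c.1 0) (mk c) = c
  rp0 : ∀ (x : X) (u : Bd X), rp x u 0 = x
  rpd : ∀ (x : X) (u : Bd X) (s t : ℝ), 0 ≤ s → 0 ≤ t → dist (rp x u s) (rp x u t) = |s - t|
  rplip : ∀ (x y : X) (u : Bd X) (t : ℝ), dist (rp x u t) (rp y u t) ≤ dist x y
  rpadd : ∀ (x : X) (u : Bd X) (s t : ℝ), 0 ≤ s → 0 ≤ t → rp (rp x u s) u t = rp x u (s + t)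
  rpact : ∀ (φ : X ≃ᵢ X) (x : X) (u : Bd X) (t : ℝ), rp (φ x) (act φ u) t = φ (rp x u t)
  rpline : ∀ (n : Bd X) (l : ℝ → X), Line n l → ∀ s t, 0 ≤ t → rp (l s) n t = l (s + t)
  rpinj : ∀ (x : X) (u v : Bd X), (∀ t, 0 ≤ t → rp x u t = rp x v t) → u = v
  cont : Continuous fun p : X × Bd X × ℝ => rp p.1 p.2.1 p.2.2
  cpt : CompactSpace (Bd X)
  t2 : T2Space (Bd X)
  tend : ∀ (ι : Type) (l : Filter ι) (o : X) (w : ι → Bd X) (u : Bd X),
    (∀ t, 0 ≤ t → Tendsto (fun i => rp o (w i) t) l (𝓝 (rp o u t))) → Tendsto w l (𝓝 u)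
  lim : ∀ (ι : Type) (U : Ultrafilter ι) (o : X) (x : ι → X),
    Tendsto (fun i => dist o (x i)) U atTop → ∃ u, Conv U o x u
  near : ∀ (ι : Type) (l : Filter ι) (o : X) (x : ι → X) (u : Bd X) (t : ι → ℝ) (D : ℝ),
    Tendsto t l atTop → (∀ᶠ i in l, dist (x i) (rp o u (t i)) ≤ D) → Conv l o x u

structure C3 : Prop where
  lim : ∀ (u : Bd X) (x y : X),
    Tendsto (fun t : ℝ => dist y (rp x u t) - t) atTop (𝓝 (bus u x y))
  le : ∀ (u : Bd X) (x y : X) (t : ℝ), 0 ≤ t → bus u x y ≤ dist y (rp x u t) - t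
  hor : ∀ (ι : Type) (l : Filter ι) (x y : X) (p : ι → X) (u : Bd X), Conv l x p u →
    Tendsto (fun i => dist y (p i) - dist x (p i)) l (𝓝 (bus u x y))
  add : ∀ (u : Bd X) (x y z : X), bus u x z = bus u x y + bus u y z
  lip : ∀ (u : Bd X) (x y : X), |bus u x y| ≤ dist x y
  self : ∀ (u : Bd X) (x : X) (t : ℝ), 0 ≤ t → bus u x (rp x u t) = -t
  conv : ∀ (u : Bd X) (o x y m : X) (t : ℝ), 0 ≤ t → t ≤ 1 → dist x m = t * dist x y →
    dist m y = (1 - t) * dist x y → bus u o m ≤ (1 - t) * bus u o x + t * bus u o y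
  key : ∀ (u : Bd X) (x y : X) (r : ℝ), 0 ≤ r →
    dist y (rp x u r) ^ 2 ≤ dist x y ^ 2 + r ^ 2 + 2 * r * bus u x y
  cont : Continuous fun p : Bd X × X × X => bus p.1 p.2.1 p.2.2
  equi : ∀ (φ : X ≃ᵢ X) (u : Bd X) (x y : X), bus (act φ u) (φ x) (φ y) = bus u x y

structure C4a : Prop where
  ge : ∀ (x : X) (u v : Bd X), -1 ≤ kap x u v
  le : ∀ (x : X) (u v : Bd X), kap x u v ≤ 1
  indep : ∀ (x y : X) (u v : Bd X), kap x u v = kap y u v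
  cmp : ∀ (x : X) (u v : Bd X) (s t : ℝ), 0 ≤ s → 0 ≤ t →
    dist (rp x u s) (rp x v t) ^ 2 ≤ s ^ 2 + t ^ 2 - 2 * s * t * kap x u v
  lim : ∀ (o x y : X) (u v : Bd X) (s t : ℝ), 0 ≤ s → 0 ≤ t →
    Tendsto (fun r : ℝ => dist (rp x u (s * r)) (rp y v (t * r)) ^ 2 / r ^ 2) atTop
      (𝓝 (s ^ 2 + t ^ 2 - 2 * s * t * kap o u v))
  busle : ∀ (x : X) (u v : Bd X) (t : ℝ), 0 ≤ t → bus v x (rp x u t) ≤ -t * kap x u v
  buslim : ∀ (x : X) (u v : Bd X),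
    Tendsto (fun t : ℝ => bus v x (rp x u t) / t) atTop (𝓝 (-kap x u v))

structure C4 : Prop where
  nn : ∀ u v : Bd X, 0 ≤ ang u v
  lepi : ∀ u v : Bd X, ang u v ≤ π
  cmp : ∀ (x : X) (u v : Bd X) (s t : ℝ), 0 ≤ s → 0 ≤ t →
    dist (rp x u s) (rp x v t) ^ 2 ≤ s ^ 2 + t ^ 2 - 2 * s * t * Real.cos (ang u v)
  lim : ∀ (x y : X) (u v : Bd X) (s t : ℝ), 0 ≤ s → 0 ≤ t →
    Tendsto (fun r : ℝ => dist (rp x u (s * r)) (rp y v (t * r)) ^ 2 / r ^ 2) atTop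
      (𝓝 (s ^ 2 + t ^ 2 - 2 * s * t * Real.cos (ang u v)))
  busle : ∀ (x : X) (u v : Bd X) (t : ℝ), 0 ≤ t →
    bus v x (rp x u t) ≤ -t * Real.cos (ang u v)
  buslim : ∀ (x : X) (u v : Bd X),
    Tendsto (fun t : ℝ => bus v x (rp x u t) / t) atTop (𝓝 (-Real.cos (ang u v)))

structure C5 : Prop where
  symm : ∀ u v : Bd X, ang u v = ang v u
  self : ∀ u : Bd X, ang u u = 0
  eq : ∀ u v : Bd X, ang u v = 0 → u = v
  tri : ∀ u v w : Bd X, ang u w ≤ ang u v + ang v w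
  equi : ∀ (φ : X ≃ᵢ X) (u v : Bd X), ang (act φ u) (act φ v) = ang u v
  iff : ∀ (x : X) (u v : Bd X) (θ : ℝ), 0 ≤ θ → θ ≤ π → (ang u v ≤ θ ↔
    ∀ t, 0 ≤ t → dist (rp x u t) (rp x v t) ^ 2 ≤ 2 * t ^ 2 * (1 - Real.cos θ))
  closed : ∀ θ : ℝ, IsClosed {p : Bd X × Bd X | ang p.1 p.2 ≤ θ}

def Mid : Prop :=
  ∀ u v : Bd X, ang u v < π → ∃ w, ang u w ≤ ang u v / 2 ∧ ang w v ≤ ang u v / 2

structure C6 : Prop where
  path : ∀ u v : Bd X, ang u v < π → ∃ γ : ℝ → Bd X, γ 0 = u ∧ γ 1 = v ∧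
    ContinuousOn γ (Icc 0 1) ∧
    ∀ s ∈ Icc (0 : ℝ) 1, ∀ t ∈ Icc (0 : ℝ) 1, ang (γ s) (γ t) ≤ ang u v * |s - t|
  ge : ∀ u v : Bd X, ENNReal.ofReal (ang u v) ≤ tits u v
  eq : ∀ u v : Bd X, ang u v < π → tits u v = ENNReal.ofReal (ang u v)

/-- all the basic facts -/
structure Core : Prop where
  c1 : C1 X
  c2 : C2 X
  c3 : C3 X
  c4 : C4 X
  c5 : C5 X
  c6 : C6 X

/-- lines with forward end n exist and are parallel -/
def Par {X : Type} [MetricSpace X] (n : Bd X) : Prop :=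
  (∃ l, Line n l) ∧ ∀ l₁ l₂, Line n l₁ → Line n l₂ → ∀ t, dist (l₁ t) (l₂ t) = dist (l₁ 0) (l₂ 0)

/-- Pythagoras for lines with forward end n -/
def Pyth {X : Type} [MetricSpace X] (n : Bd X) : Prop :=
  ∀ l₁ l₂, Line n l₁ → Line n l₂ → bus n (l₁ 0) (l₂ 0) = 0 →
    ∀ s t, dist (l₁ s) (l₂ t) ^ 2 = dist (l₁ 0) (l₂ 0) ^ 2 + (s - t) ^ 2

/-- the cross section through o -/
def Sec {X : Type} [MetricSpace X] (n : Bd X) (o : X) : Set X :=
  {x | (∃ l, Line n l ∧ l 0 = x) ∧ bus n o x = 0}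

def SC1 : Prop := ∀ (X : Type) [MetricSpace X], CAT0 X → C1 X
def SC2 : Prop := ∀ (X : Type) [MetricSpace X] [ProperSpace X], C1 X → C2 X
def SC3 : Prop := ∀ (X : Type) [MetricSpace X], C1 X → C2 X → C3 X
def SC4a : Prop := ∀ (X : Type) [MetricSpace X], C1 X → C2 X → C3 X → C4a X
def SC4 : Prop := ∀ (X : Type) [MetricSpace X], C1 X → C2 X → C3 X → C4a X → C4 X
def SC5 : Prop := ∀ (X : Type) [MetricSpace X], C1 X → C2 X → C4 X → C5 X
def SMid : Prop := ∀ (X : Type) [MetricSpace X], C1 X → C2 X → C4 X → C5 X → Mid X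
def SC6 : Prop := ∀ (X : Type) [MetricSpace X], C2 X → C4 X → C5 X → Mid X → C6 X
def SCore : Prop := ∀ (X : Type) [MetricSpace X] [ProperSpace X], CAT0 X → Core X

def SPar : Prop := ∀ (X G : Type) [MetricSpace X] [ProperSpace X] [Group G] (ρ : G →* X ≃ᵢ X)
  (n : Bd X), Core X → Geometric ρ → (∀ g, act (ρ g) n = n) → Par n

def SPyth : Prop := ∀ (X : Type) [MetricSpace X] (n : Bd X), Core X → Par n → Pyth n

def SSec : Prop := ∀ (X : Type) [MetricSpace X] [ProperSpace X] (n : Bd X) (l₀ : ℝ → X),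
  Core X → Pyth n → Line n l₀ → IsClosed (Sec n (l₀ 0)) ∧ CAT0 (Sec n (l₀ 0))

def SSplit : Prop := ∀ (X G : Type) [MetricSpace X] [Group G] (ρ : G →* X ≃ᵢ X)
  (n : Bd X) (l₀ : ℝ → X), Core X → (∀ g, act (ρ g) n = n) → Pyth n → Line n l₀ →
  ∃ (Φ : Sec n (l₀ 0) → ℝ → X) (ρ' : G →* Sec n (l₀ 0) ≃ᵢ Sec n (l₀ 0)) (χ : G → ℝ),
    Split ρ (Sec n (l₀ 0)) Φ ρ' χ ∧ (∀ x, Line n (Φ x)) ∧ Nonempty (Sec n (l₀ 0))

/-- words of linear length in a finite set -/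
def SWord : Prop := ∀ (X G : Type) [MetricSpace X] [ProperSpace X] [Group G] (ρ : G →* X ≃ᵢ X)
  (o : X), C1 X → Geometric ρ → ∃ D : ℝ, 0 ≤ D ∧ (∀ x, ∃ g, dist x (ρ g o) ≤ D) ∧
    (∀ R : ℝ, {g | dist o (ρ g o) ≤ R}.Finite) ∧
    ∀ g, ∃ w : List G, (∀ s ∈ w, dist o (ρ s o) ≤ 2 * D + 1) ∧ w.prod = g ∧
      (w.length : ℝ) ≤ dist o (ρ g o) + 1

/-- rational approximation of an additive character on a finite set -/
def SRat : Prop := ∀ (G : Type) [Group G] (χ : G → ℝ) (S : Set G) (ε : ℝ), 0 < ε → S.Finite →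
  (∀ g h, χ (g * h) = χ g + χ h) → ∃ (ψ : G → ℝ) (N : ℕ), 0 < N ∧ (∀ g h, ψ (g * h) = ψ g + ψ h) ∧
    (∀ s ∈ S, ∃ k : ℤ, ψ s = k / N) ∧ ∀ s ∈ S, |ψ s - χ s| ≤ ε

def SGeoK : Prop := ∀ (X G X' : Type) [MetricSpace X] [ProperSpace X] [Group G] [MetricSpace X']
  [ProperSpace X'] [Nonempty X'] (ρ : G →* X ≃ᵢ X) (Φ : X' → ℝ → X) (ρ' : G →* X' ≃ᵢ X')
  (χ : G → ℝ), C1 X → Geometric ρ → Split ρ X' Φ ρ' χ →
  (∃ (N : Type) (_ : Group N) (σ : N →* X' ≃ᵢ X'), Geometric σ) ∧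
    ∃ D : ℝ, ∀ z, ∃ x t, dist z (Φ x t) ≤ D

/-- the polar coordinates on the boundary of a product with a line -/
def Polar {X X' : Type} [MetricSpace X] [MetricSpace X'] (Φ : X' → ℝ → X) (x₀ : X')
    (q : Bd X' × ℝ → Bd X) : Prop :=
  ∀ v θ t, 0 ≤ t → rp (Φ x₀ 0) (q (v, θ)) t = Φ (rp x₀ v (t * |Real.sin θ|)) (t * Real.cos θ)

def SPolar : Prop := ∀ (X X' : Type) [MetricSpace X] [MetricSpace X'] (Φ : X' → ℝ → X) (x₀ : X'),
  Core X → Core X' → (∀ x y s t, dist (Φ x s) (Φ y t) ^ 2 = dist x y ^ 2 + (s - t) ^ 2) →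
  ∃ q : Bd X' × ℝ → Bd X, Polar Φ x₀ q ∧ Continuous q ∧
    ∀ v v', ∀ θ ∈ Icc 0 π, ∀ θ' ∈ Icc 0 π, Real.cos (ang (q (v, θ)) (q (v', θ'))) =
      Real.cos θ * Real.cos θ' + Real.sin θ * Real.sin θ' * Real.cos (ang v v')

def SOnto : Prop := ∀ (X X' : Type) [MetricSpace X] [MetricSpace X'] [ProperSpace X']
  (Φ : X' → ℝ → X) (x₀ : X') (D : ℝ), Core X → Core X' →
  (∀ x y s t, dist (Φ x s) (Φ y t) ^ 2 = dist x y ^ 2 + (s - t) ^ 2) →
  (∀ z, ∃ x t, dist z (Φ x t) ≤ D) → ∀ u : Bd X,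
  (∀ t, 0 ≤ t → rp (Φ x₀ 0) u t = Φ x₀ t) ∨ (∀ t, 0 ≤ t → rp (Φ x₀ 0) u t = Φ x₀ (-t)) ∨
    ∃ v : Bd X', ∃ θ ∈ Ioo 0 π, ∀ t, 0 ≤ t →
      rp (Φ x₀ 0) u t = Φ (rp x₀ v (t * Real.sin θ)) (t * Real.cos θ)

/-- a fixed point at infinity is a pole of a metric suspension of a group boundary -/
def SFix : Prop := ∀ (X G : Type) [MetricSpace X] [ProperSpace X] [Group G] (ρ : G →* X ≃ᵢ X)
  (n : Bd X), CAT0 X → Geometric ρ → (∀ g, act (ρ g) n = n) →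
  ∃ (X' : Type) (_ : MetricSpace X') (p : Bd X) (q : Bd X' × ℝ → Bd X), GroupSpace X' ∧
    Susp (Bd X) (Bd X') n p q ∧
    ∀ v v', ∀ θ ∈ Icc 0 π, ∀ θ' ∈ Icc 0 π, Real.cos (ang (q (v, θ)) (q (v', θ'))) =
      Real.cos θ * Real.cos θ' + Real.sin θ * Real.sin θ' * Real.cos (ang v v')

def SDyn : Prop := ∀ (X G : Type) [MetricSpace X] [ProperSpace X] [Group G] (ρ : G →* X ≃ᵢ X),
  Core X → Geometric ρ → (∀ ξ, ∃ ζ, Push ρ ζ ξ) ∧
    ∀ (g : G) (l : ℝ → X) (τ : ℝ) (a b : Bd X), 0 < τ → (∀ t, ρ g (l t) = l (t + τ)) →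
      Line a l → Line b (fun t => l (-t)) → Push ρ b a

def SAff : Prop := ∀ (X : Type) [MetricSpace X] (φ : X ≃ᵢ X) (l : ℝ → X) (τ : ℝ) (a η : Bd X),
  Core X → 0 < τ → (∀ t, φ (l t) = l (t + τ)) → Line a l →
  ∃ η' : Bd X, ∀ t, bus η' (l 0) (l t) = -t * Real.cos (ang a η)

def SHalf : Prop := ∀ (X : Type) [MetricSpace X] (l : ℝ → X) (η : Bd X) (α : ℝ),
  Core X → Isometry l → 0 < α → α < π → (∀ t, bus η (l 0) (l t) = -t * Real.cos α) →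
  ∃ F : ℝ → ℝ≥0 → X, (∀ t, F t 0 = l t) ∧
    ∀ s t a b, dist (F s a) (F t b) ^ 2 = (s - t) ^ 2 + ((a : ℝ) - (b : ℝ)) ^ 2

def SSepR : Prop := ∀ (X G : Type) [MetricSpace X] [ProperSpace X] [Group G] (ρ : G →* X ≃ᵢ X),
  CAT0 X → Geometric ρ → RankOne ρ → ¬ SphereLike (Bd X) → Sep (Bd X) ∧ Nontrivial (Bd X)

def SSepD : Prop := ∀ (X G : Type) [MetricSpace X] [ProperSpace X] [Group G] (ρ : G →* X ≃ᵢ X),
  CAT0 X → Geometric ρ → ¬ PreconnectedSpace (Bd X) →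
  (∃ a b c : Bd X, a ≠ b ∧ a ≠ c ∧ b ≠ c) → Sep (Bd X)

/-- coordinates on a suspension -/
def SCoord : Prop := ∀ (Z V : Type) [TopologicalSpace Z] [T2Space Z] [TopologicalSpace V]
  [CompactSpace V] [Nonempty V] (n p : Z) (q : V × ℝ → Z), Susp Z V n p q →
  T2Space V ∧ CompactSpace Z ∧ ∃ (pr : Z → V) (th : Z → ℝ), Continuous th ∧
    ContinuousOn pr {n, p}ᶜ ∧ (∀ v, ∀ θ ∈ Icc 0 π, th (q (v, θ)) = θ) ∧
    (∀ v, ∀ θ ∈ Ioo 0 π, pr (q (v, θ)) = v) ∧ (∀ z, th z ∈ Icc 0 π ∧ q (pr z, th z) = z) ∧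
    ∀ z, z ∈ ({n, p}ᶜ : Set Z) ↔ th z ∈ Ioo 0 π

/-- coordinates on a join -/
def SCoordJ : Prop := ∀ (Y A B : Type) [TopologicalSpace Y] [T2Space Y] [TopologicalSpace A]
  [CompactSpace A] [TopologicalSpace B] [CompactSpace B] [Nonempty A] [Nonempty B]
  (j : A × B × ℝ → Y), JoinS Y A B j →
  ∃ (α : Y → A) (β : Y → B) (s : Y → ℝ), Continuous s ∧ ContinuousOn α {y | s y < 1} ∧
    ContinuousOn β {y | 0 < s y} ∧ (∀ y, s y ∈ Icc (0 : ℝ) 1 ∧ j (α y, β y, s y) = y) ∧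
    ContinuousOn (fun w : Y × ℝ => j (α w.1, β w.1, w.2 * s w.1)) ({y | s y < 1} ×ˢ Icc 0 1) ∧
    ∀ a b, ∀ r ∈ Icc (0 : ℝ) 1, s (j (a, b, r)) = r ∧ (r < 1 → α (j (a, b, r)) = a) ∧
      (0 < r → β (j (a, b, r)) = b)

/-- the literal join has the two coordinate structures -/
def SLit : Prop :=
  (∀ (Y : Type) [TopologicalSpace Y] [Nonempty Y],
    ∃ n p q, Susp (Join Bool Y) Y n p q) ∧
  ∀ (A B : Type) [TopologicalSpace A] [TopologicalSpace B], ∃ j, JoinS (Join A B) A B j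

/-- a chart onto a Sep space is constant along fibres of a suspension, and contains no pole -/
def SFlat : Prop := ∀ (Z V A : Type) [TopologicalSpace Z] [T2Space Z] [TopologicalSpace V]
  [CompactSpace V] [Nonempty V] [TopologicalSpace A] [Nontrivial A] (n p : Z) (q : V × ℝ → Z)
  (O : Set Z) (α : Z → A), Susp Z V n p q → Sep A → Chart O α →
  n ∉ O ∧ p ∉ O ∧ ∀ v a b, 0 < a → a ≤ b → b < π → (∀ θ ∈ Icc a b, q (v, θ) ∈ O) →
    α (q (v, a)) = α (q (v, b))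

def SCanc : Prop := ∀ (Y : Type) [TopologicalSpace Y] [CompactSpace Y] [Nontrivial Y],
  Sep Y → Canc Y

/-- fibres of a second suspension structure on the suspension of a join stay in one stratum -/
def SStrat : Prop := ∀ (Z Y V A B : Type) [TopologicalSpace Z] [T2Space Z] [TopologicalSpace Y]
  [TopologicalSpace V] [CompactSpace V] [Nonempty V] [TopologicalSpace A] [CompactSpace A]
  [Nontrivial A] [TopologicalSpace B] [CompactSpace B] [Nontrivial B] (n p : Z)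
  (q : Y × ℝ → Z) (q' : V × ℝ → Z) (j : A × B × ℝ → Y), Sep A → Sep B → JoinS Y A B j →
  Susp Z Y n p q → Susp Z V n p q' → ∀ (v : V) (a : A) (b : B), ∀ θ₀ ∈ Ioo 0 π, ∀ θ ∈ Ioo 0 π,
  q' (v, θ₀) = q (j (a, b, 0), θ) → ∀ θ₁ ∈ Ioo 0 π, ∃ θ₂ ∈ Ioo 0 π, q' (v, θ₁) = q (j (a, b, 0), θ₂)

/-- the lens 0 ≤ x ≤ sin y, 0 ≤ y ≤ pi -/
def Lens : Set (ℝ × ℝ) := {w | 0 ≤ w.2 ∧ w.2 ≤ π ∧ 0 ≤ w.1 ∧ w.1 ≤ Real.sin w.2}

/-- L is an arc in the lens from the bottom pole to the top pole -/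
structure Arc (L : ℝ → ℝ × ℝ) : Prop where
  cont : Continuous L
  zero : L 0 = (0, 0)
  pi : L π = (0, π)
  mem : ∀ t ∈ Ioo 0 π, L t ∈ Lens ∧ (L t).2 ∈ Ioo 0 π

/-- the closed region to the left of an arc -/
def LeftOf (L : ℝ → ℝ × ℝ) : Set (ℝ × ℝ) :=
  L '' Icc 0 π ∪ {w | ∃ y, JoinedIn (Lens \ L '' Icc 0 π) (0, y) w}

/-- the open region to the right of an arc -/
def RightOf (L : ℝ → ℝ × ℝ) : Set (ℝ × ℝ) :=
  {w | ∃ y, JoinedIn (Lens \ L '' Icc 0 π) (Real.sin y, y) w}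

/-- crossing lemma and the order of disjoint arcs -/
def SOrd : Prop :=
  (∀ L, Arc L → Disjoint (LeftOf L) (RightOf L)) ∧
  ∀ L L', Arc L → Arc L' → Disjoint (L '' Ioo 0 π) (L' '' Ioo 0 π) →
    (LeftOf L ⊆ LeftOf L' ∧ L' '' Ioo 0 π ⊆ RightOf L) ∨
    (LeftOf L' ⊆ LeftOf L ∧ L '' Ioo 0 π ⊆ RightOf L')

/-- a continuous function on a family of arcs, strictly monotone in the order -/
def STau : Prop := ∀ (V : Type) [TopologicalSpace V] (L : V → ℝ → ℝ × ℝ),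
  Continuous (fun p : V × ℝ => L p.1 p.2) → (∀ v, Arc (L v)) →
  (∀ v, Lens ⊆ LeftOf (L v) ∪ RightOf (L v)) →
  ∃ τ : V → ℝ, Continuous τ ∧ (∀ v v', LeftOf (L v) ⊆ LeftOf (L v') → τ v ≤ τ v') ∧
    ∀ v v', LeftOf (L v) ⊆ LeftOf (L v') → L v' '' Ioo 0 π ⊆ RightOf (L v) → τ v < τ v'

/-- every fibre of q' lies over a vertex or in one open cell -/
def Cells {Z Y V A B : Type} (q : Y × ℝ → Z) (q' : V × ℝ → Z) (j : A × B × ℝ → Y) : Prop :=
  ∀ v, ∃ a b, (∀ t ∈ Ioo 0 π, ∃ θ ∈ Ioo 0 π, q' (v, t) = q (j (a, b, 0), θ)) ∨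
    (∀ t ∈ Ioo 0 π, ∃ θ ∈ Ioo 0 π, q' (v, t) = q (j (a, b, 1), θ)) ∨
    ∀ t ∈ Ioo 0 π, ∃ r ∈ Ioo (0 : ℝ) 1, ∃ θ ∈ Ioo 0 π, q' (v, t) = q (j (a, b, r), θ)

def SCells : Prop := ∀ (Z Y V A B : Type) [TopologicalSpace Z] [T2Space Z] [TopologicalSpace Y]
  [TopologicalSpace V] [CompactSpace V] [TopologicalSpace A] [CompactSpace A]
  [Nontrivial A] [TopologicalSpace B] [CompactSpace B] [Nontrivial B] (n p n' p' : Z)
  (q : Y × ℝ → Z) (q' : V × ℝ → Z) (j : A × B × ℝ → Y), Sep A → Sep B → JoinS Y A B j →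
  Susp Z Y n p q → Susp Z V n' p' q' → Nonempty V ∧ (n' = n ∨ n' = p) ∧ (p' = n ∨ p' = p) ∧
    (n' = n → p' = p → Cells q q' j)

def SHomeo : Prop := ∀ (Z Y V A B : Type) [TopologicalSpace Z] [T2Space Z] [TopologicalSpace Y]
  [TopologicalSpace V] [CompactSpace V] [Nonempty V] [TopologicalSpace A] [CompactSpace A]
  [Nonempty A] [TopologicalSpace B] [CompactSpace B] [Nonempty B] (n p : Z)
  (q : Y × ℝ → Z) (q' : V × ℝ → Z) (j : A × B × ℝ → Y), JoinS Y A B j →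
  Susp Z Y n p q → Susp Z V n p q' → Cells q q' j → Nonempty (V ≃ₜ Y)

/-- a homeomorphism of the equators extends to the suspensions -/
def SSuspMap : Prop := ∀ (Z₁ V₁ Z₂ V₂ : Type) [TopologicalSpace Z₁] [T2Space Z₁]
  [TopologicalSpace V₁] [CompactSpace V₁] [Nonempty V₁] [TopologicalSpace Z₂] [T2Space Z₂]
  [TopologicalSpace V₂] (n₁ p₁ : Z₁) (q₁ : V₁ × ℝ → Z₁) (n₂ p₂ : Z₂) (q₂ : V₂ × ℝ → Z₂)
  (f : V₁ ≃ₜ V₂), Susp Z₁ V₁ n₁ p₁ q₁ → Susp Z₂ V₂ n₂ p₂ q₂ →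
  ∃ F : Z₁ ≃ₜ Z₂, ∀ v, ∀ θ ∈ Icc 0 π, F (q₁ (v, θ)) = q₂ (f v, θ)

/-- the stabiliser of a point with orbit in a two point set acts geometrically -/
def SStab : Prop := ∀ (X G : Type) [MetricSpace X] [Group G] (ρ : G →* X ≃ᵢ X) (n p : Bd X),
  Geometric ρ → (∀ g, act (ρ g) n = n ∨ act (ρ g) n = p) →
  ∃ (H : Type) (_ : Group H) (σ : H →* X ≃ᵢ X), Geometric σ ∧ ∀ h, act (σ h) n = n

/-- an angle preserving bijection of boundaries is a Tits isometry, and conversely -/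
def STits : Prop := ∀ (X₁ X₂ : Type) [MetricSpace X₁] [MetricSpace X₂] (f : Bd X₁ ≃ Bd X₂),
  ((∀ u v, ang (f u) (f v) = ang u v) → ∀ u v, tits (f u) (f v) = tits u v) ∧
  (Core X₁ → Core X₂ → (∀ u v, tits (f u) (f v) = tits u v) → ∀ u v, ang (f u) (f v) = ang u v)

def SCancJ : Prop := ∀ (Y A B : Type) [TopologicalSpace Y] [TopologicalSpace A] [CompactSpace A]
  [Nontrivial A] [TopologicalSpace B] [CompactSpace B] [Nontrivial B] (j : A × B × ℝ → Y),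
  Sep A → Sep B → JoinS Y A B j → Canc Y

def SMain : Prop := ∀ (Y : Type) [TopologicalSpace Y] [CompactSpace Y] [Nontrivial Y],
  Canc Y → TitsRigid Y → TitsRigid (Join Bool Y)

end Pool.Agent.MP_0c1703_gt.H58
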