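import Pool.Agent.MP_0c1703_gt.H58.Spec
import Pool.Agent.MP_0c1703_gt.H58.Defs2

/-! Row statements for double mapping cylinders. -/

namespace Pool.Agent.MP_0c1703_gt.H58

open Set Filter Topology
open scoped NNReal ENNReal Real

/-- Y is the double mapping cylinder of α₀, β₀ with coordinates j -/
structure CylS (Y : Type) {C A B : Type} [TopologicalSpace Y] [TopologicalSpace C]
    (α₀ : C → A) (β₀ : C → B) (j : C × ℝ → Y) : Prop where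
  cont : Continuous j
  zero : ∀ c c', α₀ c = α₀ c' → j (c, 0) = j (c', 0)
  one : ∀ c c', β₀ c = β₀ c' → j (c, 1) = j (c', 1)
  inj : ∀ c s c' s', s ∈ Icc (0 : ℝ) 1 → s' ∈ Icc (0 : ℝ) 1 → j (c, s) = j (c', s') →
    s = s' ∧ (s < 1 → α₀ c = α₀ c') ∧ (0 < s → β₀ c = β₀ c') ∧ (0 < s → s < 1 → c = c')
  surj : ∀ y, ∃ c, ∃ s ∈ Icc (0 : ℝ) 1, j (c, s) = y

def SLitG : Prop := ∀ (C A B : Type) [TopologicalSpace C] (α₀ : C → A) (β₀ : C → B),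
  ∃ j, CylS (Cyl α₀ β₀) α₀ β₀ j

def SCoordG : Prop := ∀ (Y C A B : Type) [TopologicalSpace Y] [T2Space Y] [TopologicalSpace C]
  [CompactSpace C] [TopologicalSpace A] [TopologicalSpace B] (α₀ : C → A) (β₀ : C → B)
  (j : C × ℝ → Y), Continuous α₀ → Continuous β₀ → CylS Y α₀ β₀ j →
  ∃ (γ : Y → C) (s : Y → ℝ), Continuous s ∧ ContinuousOn γ {y | 0 < s y ∧ s y < 1} ∧
    ContinuousOn (fun y => α₀ (γ y)) {y | s y < 1} ∧
    ContinuousOn (fun y => β₀ (γ y)) {y | 0 < s y} ∧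
    (∀ y, s y ∈ Icc (0 : ℝ) 1 ∧ j (γ y, s y) = y) ∧ ∀ c, ∀ r ∈ Icc (0 : ℝ) 1, s (j (c, r)) = r

/-- every fibre of q' lies over a vertex or in one open cell -/
def CellsG {Z Y V C : Type} (q : Y × ℝ → Z) (q' : V × ℝ → Z) (j : C × ℝ → Y) : Prop :=
  ∀ v, ∃ c, (∀ t ∈ Ioo 0 π, ∃ θ ∈ Ioo 0 π, q' (v, t) = q (j (c, 0), θ)) ∨
    (∀ t ∈ Ioo 0 π, ∃ θ ∈ Ioo 0 π, q' (v, t) = q (j (c, 1), θ)) ∨
    ∀ t ∈ Ioo 0 π, ∃ r ∈ Ioo (0 : ℝ) 1, ∃ θ ∈ Ioo 0 π, q' (v, t) = q (j (c, r), θ)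

def SStratG : Prop := ∀ (Z Y V C A B : Type) [TopologicalSpace Z] [T2Space Z] [TopologicalSpace Y]
  [TopologicalSpace V] [CompactSpace V] [Nonempty V] [TopologicalSpace C] [CompactSpace C]
  [Nonempty C] [TotallyDisconnectedSpace C] [TopologicalSpace A] [TotallyDisconnectedSpace A]
  [TopologicalSpace B] (α₀ : C → A) (β₀ : C → B) (n p : Z) (q : Y × ℝ → Z) (q' : V × ℝ → Z)
  (j : C × ℝ → Y), Continuous α₀ → Continuous β₀ → Thick α₀ → CylS Y α₀ β₀ j →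
  Susp Z Y n p q → Susp Z V n p q' → ∀ (v : V) (c : C), ∀ θ₀ ∈ Ioo 0 π, ∀ θ ∈ Ioo 0 π,
  q' (v, θ₀) = q (j (c, 0), θ) → ∀ θ₁ ∈ Ioo 0 π, ∃ θ₂ ∈ Ioo 0 π, q' (v, θ₁) = q (j (c, 0), θ₂)

def SCellsG : Prop := ∀ (Z Y V C A B : Type) [TopologicalSpace Z] [T2Space Z] [TopologicalSpace Y]
  [TopologicalSpace V] [CompactSpace V] [TopologicalSpace C] [CompactSpace C]
  [Nonempty C] [TotallyDisconnectedSpace C] [TopologicalSpace A] [TotallyDisconnectedSpace A]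
  [TopologicalSpace B] [TotallyDisconnectedSpace B] (α₀ : C → A) (β₀ : C → B) (n p n' p' : Z)
  (q : Y × ℝ → Z) (q' : V × ℝ → Z) (j : C × ℝ → Y), Continuous α₀ → Continuous β₀ → Thick α₀ →
  Thick β₀ → CylS Y α₀ β₀ j → Susp Z Y n p q → Susp Z V n' p' q' →
  Nonempty V ∧ (n' = n ∨ n' = p) ∧ (p' = n ∨ p' = p) ∧ (n' = n → p' = p → CellsG q q' j)

def SHomeoG : Prop := ∀ (Z Y V C A B : Type) [TopologicalSpace Z] [T2Space Z] [TopologicalSpace Y]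
  [TopologicalSpace V] [CompactSpace V] [Nonempty V] [TopologicalSpace C] [CompactSpace C]
  [Nonempty C] [TopologicalSpace A] [TopologicalSpace B] (α₀ : C → A) (β₀ : C → B) (n p : Z)
  (q : Y × ℝ → Z) (q' : V × ℝ → Z) (j : C × ℝ → Y), Continuous α₀ → Continuous β₀ →
  CylS Y α₀ β₀ j → Susp Z Y n p q → Susp Z V n p q' → CellsG q q' j → Nonempty (V ≃ₜ Y)

end Pool.Agent.MP_0c1703_gt.H58
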